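import Mathlib
import Pool.Agent.W734.STS.Stms

/-!
# MP_084e97_mp, part STS-DET
-/

set_option autoImplicit false

open MeasureTheory Filter Topology

namespace Pool.Agent.W919.STS

open Pool.Agent.W734.STS

lemma meas_shift (a : ℤ) : Measurable (shift a) :=
  measurable_pi_lambda _ (fun i => measurable_pi_apply (i - a))

lemma iter_shift (n : ℕ) (X : Cf) (i : ℤ) : ((shift (-1))^[n] X) i = X (i + n) := by
  induction n generalizing X i with
  | zero => simp
  | succ n ih =>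
    rw [Function.iterate_succ_apply, ih]
    simp only [shift]
    congr 1
    push_cast
    ring

theorem rec : S_REC := by
  intro μ hμ
  have := hμ.prob
  have hcons : Conservative (shift (-1)) μ := (hμ.inv (-1)).conservative
  have key : ∀ᵐ X ∂μ, ∀ (S : ℕ) (w : (Finset.Icc (-(S:ℤ)) S) → Fin 2),
      X ∈ {X : Cf | ∀ i : Finset.Icc (-(S:ℤ)) S, X i = w i} →
      ∃ᶠ n in atTop, (shift (-1))^[n] X ∈ {X : Cf | ∀ i : Finset.Icc (-(S:ℤ)) S, X i = w i} := by
    rw [ae_all_iff]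
    intro S
    rw [ae_all_iff]
    intro w
    refine hcons.ae_mem_imp_frequently_image_mem ?_
    refine MeasurableSet.nullMeasurableSet ?_
    have e : {X : Cf | ∀ i : Finset.Icc (-(S:ℤ)) S, X i = w i} =
        ⋂ i : Finset.Icc (-(S:ℤ)) S, (fun X : Cf => X i) ⁻¹' {w i} := by
      ext X
      simp
    rw [e]
    exact MeasurableSet.iInter
      (fun i => (measurable_pi_apply (i : ℤ)) (measurableSet_singleton (w i)))
  filter_upwards [key] with X hX S m
  have h1 := hX S (fun i => X i) (by simp)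
  rw [frequently_atTop] at h1
  obtain ⟨n, hn, h2⟩ := h1 (m.toNat + 1)
  refine ⟨n, by omega, ?_⟩
  intro i hi
  have hi' : i ∈ Finset.Icc (-(S:ℤ)) S := by
    rw [Finset.mem_Icc]
    rw [abs_le] at hi
    exact hi
  have h3 := h2 ⟨i, hi'⟩
  rw [iter_shift] at h3
  exact h3

/-- local observable -/
def obs (r : ℕ) (h : (Fin r → Fin 2) → ℝ) (X : Cf) : ℝ := h (fun s => X ((s : ℕ) : ℤ))

lemma meas_obs (r : ℕ) (h : (Fin r → Fin 2) → ℝ) : Measurable (obs r h) := by
  unfold obs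
  have h1 : Measurable h := measurable_of_finite h
  refine h1.comp ?_
  exact measurable_pi_lambda _ (fun i => measurable_pi_apply _)

lemma bdd_obs (r : ℕ) (h : (Fin r → Fin 2) → ℝ) : ∃ B : ℝ, ∀ X, ‖obs r h X‖ ≤ B := by
  refine ⟨∑ w, ‖h w‖, fun X => ?_⟩
  exact Finset.single_le_sum (f := fun w => ‖h w‖) (fun w _ => norm_nonneg _) (Finset.mem_univ _)

lemma int_obs (μ : Measure Cf) [IsFiniteMeasure μ] (r : ℕ) (h : (Fin r → Fin 2) → ℝ) :
    Integrable (obs r h) μ := by
  obtain ⟨B, hB⟩ := bdd_obs r h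
  exact Integrable.of_bound (meas_obs r h).aestronglyMeasurable B (Eventually.of_forall hB)

lemma Hs_wrd (r : ℕ) (h : (Fin r → Fin 2) → ℝ) (X : Cf) (N : ℕ) :
    Hs r h (wrd X 0 N) = ∑ t ∈ Finset.range (N + 1 - r), obs r h (shift (-(t:ℤ)) X) := by
  unfold Hs
  have hl : (wrd X 0 N).length = N := by simp [wrd]
  rw [hl]
  refine Finset.sum_congr rfl (fun t ht => ?_)
  rw [Finset.mem_range] at ht
  unfold obs
  congr 1
  funext s
  have hs := s.2
  have hlt : t + (s : ℕ) < N := by omega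
  have : (wrd X 0 N)[t + (s : ℕ)]? = some (X ((0:ℤ) + ((t + (s:ℕ) : ℕ) : ℤ))) := by
    simp [wrd, hlt]
  rw [List.getD_eq_getElem?_getD, this]
  simp only [Option.getD_some, shift]
  congr 1
  push_cast
  ring

lemma int_Hs (μ : Measure Cf) (hμ : Invt μ) (r : ℕ) (h : (Fin r → Fin 2) → ℝ) (N : ℕ) :
    Integrable (fun X => Hs r h (wrd X 0 N)) μ ∧
    ∫ X, Hs r h (wrd X 0 N) ∂μ = ((N + 1 - r : ℕ) : ℝ) * ∫ X, obs r h X ∂μ := by
  have := hμ.prob
  have h1 : ∀ t : ℕ, Integrable (fun X => obs r h (shift (-(t:ℤ)) X)) μ := fun t =>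
    (hμ.inv (-(t:ℤ))).integrable_comp_of_integrable (int_obs μ r h)
  have h2 : (fun X => Hs r h (wrd X 0 N)) =
      fun X => ∑ t ∈ Finset.range (N + 1 - r), obs r h (shift (-(t:ℤ)) X) := by
    funext X
    exact Hs_wrd r h X N
  refine ⟨?_, ?_⟩
  · rw [h2]
    exact integrable_finsetSum _ (fun t _ => h1 t)
  · rw [h2, integral_finsetSum _ (fun t _ => h1 t)]
    have h3 : ∀ t ∈ Finset.range (N + 1 - r),
        ∫ X, obs r h (shift (-(t:ℤ)) X) ∂μ = ∫ X, obs r h X ∂μ := by
      intro t _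
      have h4 := (hμ.inv (-(t:ℤ))).map_eq
      conv_rhs => rw [← h4]
      rw [integral_map (meas_shift _).aemeasurable (meas_obs r h).aestronglyMeasurable]
    rw [Finset.sum_congr rfl h3]
    simp

lemma int_eq (hFW : S_FW) (r : ℕ) (h : (Fin r → Fin 2) → ℝ) : ∃ ρ : ℝ, ∀ μ : Measure Cf, Invt μ →
    ∀ β : ℕ → ℝ, Tendsto (fun N : ℕ => β N / N) atTop (nhds 0) →
    (∀ᵐ X ∂μ, ∀ N : ℕ, G (wrd X 0 N) ≤ β N) → ∫ X, obs r h X ∂μ = ρ := by
  obtain ⟨ρ, C, hC, hF⟩ := hFW r h
  refine ⟨ρ, ?_⟩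
  intro μ hμ β hβ hG
  have := hμ.prob
  set I := ∫ X, obs r h X ∂μ with hI
  have hb : ∀ N : ℕ, |((N + 1 - r : ℕ) : ℝ) * I - ρ * N| ≤ C * (1 + β N) := by
    intro N
    obtain ⟨h1, h2⟩ := int_Hs μ hμ r h N
    rw [← hI] at h2
    rw [← h2]
    have h3 : ∫ X, (Hs r h (wrd X 0 N) - ρ * N) ∂μ = (∫ X, Hs r h (wrd X 0 N) ∂μ) - ρ * N := by
      rw [integral_sub h1 (integrable_const _)]
      simp
    rw [← h3]
    have h4 : ∀ᵐ X ∂μ, ‖Hs r h (wrd X 0 N) - ρ * N‖ ≤ C * (1 + β N) := by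
      filter_upwards [hG] with X hX
      have h5 := hF (wrd X 0 N)
      have hl : (wrd X 0 N).length = N := by simp [wrd]
      rw [hl] at h5
      rw [Real.norm_eq_abs]
      refine h5.trans ?_
      exact mul_le_mul_of_nonneg_left (by linarith [hX N]) hC
    have h6 := norm_integral_le_of_norm_le_const h4
    simpa using h6
  have ht1 : Tendsto (fun N : ℕ => (((N + 1 - r : ℕ) : ℝ) * I - ρ * N) / N) atTop (𝓝 (I - ρ)) := by
    have e1 : ∀ᶠ N : ℕ in atTop, (1 + (1 - (r:ℝ)) / N) * I - ρ =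
        (((N + 1 - r : ℕ) : ℝ) * I - ρ * N) / N := by
      filter_upwards [eventually_ge_atTop (r + 1)] with N hN
      have hN0 : (N : ℝ) ≠ 0 := by
        have : 0 < N := by omega
        positivity
      have hc : ((N + 1 - r : ℕ) : ℝ) = N + 1 - r := by
        rw [Nat.cast_sub (by omega)]
        push_cast
        ring
      rw [hc]
      field_simp
      ring
    refine Tendsto.congr' e1 ?_
    have h7 : Tendsto (fun N : ℕ => (1 - (r:ℝ)) / N) atTop (𝓝 0) :=
      tendsto_const_div_atTop_nhds_zero_nat _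
    have h8 := ((h7.const_add 1).mul_const I).sub_const ρ
    simpa using h8
  have ht2 : Tendsto (fun N : ℕ => (C * (1 + β N)) / N) atTop (𝓝 0) := by
    have h7 : Tendsto (fun N : ℕ => (1:ℝ) / N) atTop (𝓝 0) :=
      tendsto_const_div_atTop_nhds_zero_nat _
    have h8 := (h7.add hβ).const_mul C
    simp only [add_zero, mul_zero] at h8
    refine h8.congr (fun N => ?_)
    ring
  have ht3 : Tendsto (fun N : ℕ => (((N + 1 - r : ℕ) : ℝ) * I - ρ * N) / N) atTop (𝓝 0) := by
    refine squeeze_zero_norm ?_ ht2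
    intro N
    rw [Real.norm_eq_abs, abs_div, Nat.abs_cast]
    exact div_le_div_of_nonneg_right (hb N) (Nat.cast_nonneg N)
  have := tendsto_nhds_unique ht1 ht3
  linarith

theorem det (hFW : S_FW) : S_DET := by
  intro μ ν hμ hν β hβ hGμ hGν
  have := hμ.prob
  have := hν.prob
  refine MeasureTheory.ext_of_generate_finite (measurableCylinders (fun _ : ℤ => Fin 2))
    generateFrom_measurableCylinders.symm isPiSystem_measurableCylinders ?_ (by simp)
  intro s hs
  rw [mem_measurableCylinders] at hs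
  obtain ⟨I, S, hS, rfl⟩ := hs
  -- a window containing `I`
  obtain ⟨M, hM⟩ : ∃ M : ℕ, ∀ i ∈ I, |i| ≤ M := by
    refine ⟨∑ i ∈ I, i.natAbs, fun i hi => ?_⟩
    have := Finset.single_le_sum (f := fun i : ℤ => i.natAbs) (fun _ _ => Nat.zero_le _) hi
    have h2 : (i.natAbs : ℤ) ≤ ((∑ i ∈ I, i.natAbs : ℕ) : ℤ) := by exact_mod_cast this
    rwa [Int.natCast_natAbs] at h2
  classical
  let h : (Fin (2 * M + 1) → Fin 2) → ℝ := fun w =>
    if (fun i : I => w ⟨((i : ℤ) + M).toNat, by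
      have := abs_le.1 (hM i i.2)
      omega⟩) ∈ S then 1 else 0
  have hh : ∀ X : Cf, obs (2 * M + 1) h (shift (M : ℤ) X) =
      (cylinder I S).indicator (fun _ => (1:ℝ)) X := by
    intro X
    simp only [obs, h, shift]
    have e : (fun i : I => X ((((((i : ℤ) + M).toNat : ℕ) : ℤ)) - M)) = I.restrict X := by
      funext i
      have := abs_le.1 (hM i i.2)
      simp only [Finset.restrict]
      congr 1
      omega
    rw [Set.indicator_apply, mem_cylinder]
    simp only [e]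
  have hm : ∀ κ : Measure Cf, Invt κ → ∫ X, obs (2 * M + 1) h X ∂κ = κ.real (cylinder I S) := by
    intro κ hκ
    have := hκ.prob
    have h4 := (hκ.inv (M : ℤ)).map_eq
    conv_lhs => rw [← h4]
    rw [integral_map (meas_shift _).aemeasurable (meas_obs _ _).aestronglyMeasurable]
    simp only [hh]
    rw [integral_indicator_const _ (MeasurableSet.cylinder I hS)]
    simp
  obtain ⟨ρ, hρ⟩ := int_eq hFW (2 * M + 1) h
  have h1 := hρ μ hμ β hβ hGμ
  have h2 := hρ ν hν β hβ hGν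
  rw [hm μ hμ] at h1
  rw [hm ν hν] at h2
  have h3 : μ.real (cylinder I S) = ν.real (cylinder I S) := h1.trans h2.symm
  simp only [Measure.real] at h3
  exact (ENNReal.toReal_eq_toReal_iff' (measure_ne_top _ _) (measure_ne_top _ _)).1 h3

end Pool.Agent.W919.STS
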